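import Pool.Agent.H65.AP.Targets
import Pool.Agent.H27.IC.SIG

/-!
Row SSH of the board crr_modules (MP_0ee698_an): the sheaf of good sign functions.
-/

open MeasureTheory Set Filter Topology Metric
open scoped ENNReal NNReal ContDiff RealInnerProductSpace Real

namespace Pool.Agent.H1.AP

open Pool.Agent.H94.IC Pool.Agent.H94.AC Pool.Agent.H92.CK Pool.Agent.H65.AP
open Pool.Agent.H27.IC (gr_shrink an_closed noflip_mul)

theorem pf_SSH (hRMG : T_RMG) (hDCH : T_DCH) : T_SSH := by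
  intro O Y hO hAN
  have hD := hDCH
  have hANW : ∀ W : Set E, W ⊆ O → ∀ p ∈ W, AN Y p := fun W hW p hp => hAN p (hW hp)
  refine ⟨?_, ?_, ?_, ?_, ?_, ?_⟩
  · intro W hW hWO hne
    exact (hRMG Y W hW (hANW W hWO)).2.1 W hW Subset.rfl hne
  · intro W s hW hWO h
    refine ⟨fun x hx => ?_, fun p hp hg => ?_⟩
    · obtain ⟨W', -, hx', -, hP⟩ := h x hx.1
      exact hP.lc x ⟨hx', hx.2⟩
    · obtain ⟨W', -, hx', -, hP⟩ := h p hp
      exact hP.flip p hx' hg
  · intro W s s' hW hWO hP he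
    refine ⟨fun x hx => ?_, fun p hp hg => ?_⟩
    · filter_upwards [hP.lc x hx, hW.mem_nhds hx.1, an_closed (hANW W hWO x hx.1) hx.2]
        with y h1 h2 h3
      rw [← he y ⟨h2, h3⟩, h1, he x hx]
    · obtain ⟨T, r, h, g, hG, c, hc⟩ := hP.flip p hp hg
      obtain ⟨r', h', hG', hbW, hbb⟩ := gr_shrink hG W (hW.mem_nhds hp)
      refine ⟨T, r', h', g, hG', c, fun x hx => ⟨fun h1 => ?_, fun h1 => ?_⟩⟩
      · rw [← he x ⟨hbW hx, fun hY => absurd ((hG'.eq x hx).1 hY) (ne_of_gt h1)⟩]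
        exact (hc x (hbb hx)).1 h1
      · rw [← he x ⟨hbW hx, fun hY => absurd ((hG'.eq x hx).1 hY) (ne_of_lt h1)⟩]
        exact (hc x (hbb hx)).2 h1
  · intro W s hW hWO hP
    refine ⟨fun x hx => ?_, fun p hp hg => ?_⟩
    · filter_upwards [hP.lc x hx] with y h1
      rw [h1]
    · obtain ⟨T, r, h, g, hG, c, hc⟩ := hP.flip p hp hg
      refine ⟨T, r, h, g, hG, -c, fun x hx => ⟨fun h1 => ?_, fun h1 => ?_⟩⟩
      · show - s x = - c
        rw [(hc x hx).1 h1]
      · show - s x = - -c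
        rw [(hc x hx).2 h1]
  · intro W s s' hW hWO hs hs' x hx
    have hLC : LC Y W (fun x => s x * s' x) := by
      intro y hy
      filter_upwards [hs.lc y hy, hs'.lc y hy] with z h1 h2
      rw [h1, h2]
    have hno : ∀ q ∈ W, GrPt Y q → ¬ Flip Y (fun x => s x * s' x) q := by
      intro q hq hg hf
      exact (hD Y W _ q hW hq hLC hg).2
        ⟨hf, noflip_mul hD hW hs.lc hs'.lc hq (hs.flip q hq hg) (hs'.flip q hq hg)⟩
    obtain ⟨W', hW', hxW', hsubW, c, hc⟩ := ((hRMG Y W hW (hANW W hWO)).2.2 _ hLC hno).1 x hx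
    refine ⟨W', hW', hxW', hsubW, ?_⟩
    rcases Int.units_eq_one_or c with h1 | h1
    · left
      intro y hy
      have h2 := hc y hy
      rw [h1] at h2
      have h3 : s y * s' y = 1 := h2
      rcases Int.units_eq_one_or (s y) with a | a <;> rcases Int.units_eq_one_or (s' y) with b | b <;>
        rw [a, b] at h3 ⊢ <;> simp_all
    · right
      intro y hy
      have h2 := hc y hy
      rw [h1] at h2
      have h3 : s y * s' y = -1 := h2
      rcases Int.units_eq_one_or (s y) with a | a <;> rcases Int.units_eq_one_or (s' y) with b | b <;>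
        rw [a, b] at h3 ⊢ <;> simp_all
  · intro x hx
    obtain ⟨W', s, h1, h2, h3, h4⟩ := (hRMG Y _ hO (hANW _ Subset.rfl)).1 x hx _ (hO.mem_nhds hx)
    exact ⟨W', s, h1, h2, h3, h4⟩

end Pool.Agent.H1.AP
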